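import Pool.Agent.Lib.MP_5ddd96_lc.MainD

/-!
For `Δ¹₁` actions of finitely generated groups with uniformly hyperbolic Schreier graphs, effective
hyperfiniteness is measure hyperfiniteness together with effective Borel boundedness.
-/

namespace Pool.Agent.Results.MP_5ddd96_lc.BorelBoundedCriterion

open Pool.Agent.EffHyp

theorem result {Γ : Type} [Group Γ] (S : Finset Γ) (hS : Subgroup.closure (S : Set Γ) = ⊤)
    (X : Set Baire) [MulAction Γ X] (hhyp : HypComponents (schreier S X))
    (hX : Delta11 (fun _ x _ => x ∈ X))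
    (hgen : ∀ s ∈ S, Sigma11
      (fun _ x y => ∃ hx : x ∈ X, ((s • (⟨x, hx⟩ : X) : X) : Baire) = y)) :
    EffHyperfinite (OrbitRel Γ X) ↔
      MeasureHyperfinite (OrbitRel Γ X) ∧ EffBorelBounded (OrbitRel Γ X) :=
  mainD S hS X hhyp hX hgen

end Pool.Agent.Results.MP_5ddd96_lc.BorelBoundedCriterion
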