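import Pool.Agent.Lib.MP_5ddd96_lc.H38.Eff

/-!
A lightface `Δ¹₁` hypersmooth equivalence relation on Baire space that is not the increasing union
of the kernels of a uniformly `Δ¹₁` sequence of maps.
-/

set_option autoImplicit false

namespace Pool.Agent.Variants.MP_5ddd96_lc.EffHypersmoothMaps

open Pool.Agent.EffHyp Pool.Agent.Lib.MP_5ddd96_lc.H38

theorem result : ∃ E : Baire → Baire → Prop, Equivalence E ∧ Delta11 (fun _ => E) ∧
    Hypersmooth E ∧ ¬ ∃ φ : ℕ → Baire → Baire, Sigma11 (fun n x y => φ n x = y) ∧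
      (∀ n x y, φ n x = φ n y → φ (n + 1) x = φ (n + 1) y) ∧
      ∀ x y, E x y ↔ ∃ n, φ n x = φ n y := Pool.Agent.EffHyp.H38.main

end Pool.Agent.Variants.MP_5ddd96_lc.EffHypersmoothMaps
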