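import Pool.Agent.Lib.MP_5ddd96_lc.MainC

/-!
Effective hyperfiniteness for continuous `Δ¹₁` actions with open sets of fixed points and
hyperbolic Schreier graphs whose orbit relation is a uniformly `Δ¹₁` increasing union of
equivalence relations with precompact classes.
-/

namespace Pool.Agent.Results.MP_5ddd96_lc.HyperbolicActions

open Pool.Agent.EffHyp

theorem result {Γ : Type} [Group Γ] (S : Finset Γ) (hS : Subgroup.closure (S : Set Γ) = ⊤)
    (X : Set Baire) [MulAction Γ X] [ContinuousConstSMul Γ X]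
    (hfix : ∀ g : Γ, IsOpen {x : X | g • x = x}) (hhyp : HypComponents (schreier S X))
    (hX : Delta11 (fun _ x _ => x ∈ X))
    (hgen : ∀ s ∈ S, Sigma11
      (fun _ x y => ∃ hx : x ∈ X, ((s • (⟨x, hx⟩ : X) : X) : Baire) = y))
    (G : ℕ → Baire → Baire → Prop) (hGd : Delta11 G) (hGe : ∀ n, Equivalence (G n))
    (hGm : ∀ n x y, G n x y → G (n + 1) x y) (hGu : ∀ x y, OrbitRel Γ X x y ↔ ∃ n, G n x y)
    (hK : ∀ (n : ℕ) (x : X), ∃ K : Set X, IsCompact K ∧ ∀ y : X, G n x y → y ∈ K)
    (hE : MeasureHyperfinite (OrbitRel Γ X)) :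
    EffHyperfinite (OrbitRel Γ X) :=
  main_precompact S hS X hfix hhyp hX hgen G hGd hGe hGm hGu hK hE

end Pool.Agent.Results.MP_5ddd96_lc.HyperbolicActions
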