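import Pool.Agent.Lib.MP_5ddd96_lc.H38.Union

/-!
An increasing union of hypersmooth equivalence relations on Baire space that is not hypersmooth.
-/

set_option autoImplicit false

namespace Pool.Agent.Results.MP_5ddd96_lc.UnionHypersmooth

open Pool.Agent.Lib.MP_5ddd96_lc.H38

theorem result : ∃ E : ℕ → (ℕ → ℕ) → (ℕ → ℕ) → Prop, Monotone E ∧ (∀ n, Hypersmooth (E n)) ∧
    ¬ Hypersmooth fun x y => ∃ n, E n x y :=
  ⟨Es, mono_Es, hypersmooth_Es, not_hypersmooth_Es⟩

end Pool.Agent.Results.MP_5ddd96_lc.UnionHypersmooth
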